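import Pool.Agent.Y333.Z.Comb2A

/-!
# The grouping lemma, second version: the five groups
-/

set_option autoImplicit false
set_option linter.unusedSectionVars false

namespace Pool.Agent.Y826.Z

open Finset Pool.Agent.Y823.Z

variable {ι : Type} [Fintype ι] [DecidableEq ι] {t X : ι → ℝ} {cl : ι → Bool} {n : ℝ}

/-- Step 4: the set `A` -/
theorem Dat2.step4 (D : Dat2 t X cl n) (hn : n < 1.6) (V R : Finset ι)
    (hV1 : ∑ z, X z - 2 + (2.0465 - ∑ z, X z) / 2 ≤ ∑ z ∈ V, X z)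
    (hV2 : ∑ z ∈ V, X z ≤ (∑ z, X z) / 2 - 0.966739) (hR : R ⊆ univ \ V)
    (hρ1 : ∑ z ∈ R, X z ≤ n)
    (hρ : n - (2.0465 - ∑ z, X z) - 0.00001 ≤ ∑ z ∈ R, X z) : ∃ A ⊆ univ \ V,
    4 - 3 * n + 18 * (∑ z, X z - 2) + 9 * (n - ∑ z ∈ R, X z) - 2 * ∑ z ∈ V, X z + 0.000002 ≤
      ∑ z ∈ A, (if z ∈ R then X z else 2 * X z) ∧
    ∑ z ∈ A, (if z ∈ R then X z else 2 * X z) ≤
      n - 4 * ∑ z ∈ V, X z - 8 * (∑ z, X z - 2) - 4 * (n - ∑ z ∈ R, X z) - 0.000002 := by
  have hn1 := D.hn1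
  have hX := D.hX
  have hle := D.le
  set ω : ι → ℝ := fun z => if z ∈ R then X z else 2 * X z with hω
  have hω1 : ∀ z, X z ≤ ω z := by
    intro z
    have := D.h0 z
    simp only [hω]
    split_ifs <;> linarith
  have hω2 : ∀ z, ω z ≤ 2 * X z := by
    intro z
    have := D.h0 z
    simp only [hω]
    split_ifs <;> linarith
  have hω0 : ∀ z, 0 ≤ ω z := fun z => (D.h0 z).trans (hω1 z)
  set hi : ℝ := n - 4 * ∑ z ∈ V, X z - 8 * (∑ z, X z - 2) - 4 * (n - ∑ z ∈ R, X z) - 0.000002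
    with hhi
  set lo : ℝ := 4 - 3 * n + 18 * (∑ z, X z - 2) + 9 * (n - ∑ z ∈ R, X z) - 2 * ∑ z ∈ V, X z +
    0.000002 with hlo
  have b1 : 0.759 ≤ hi := by linarith
  have b2 : 0.66217 - 14 * (∑ z, X z - 2) ≤ hi - lo := by linarith
  have b3 : lo ≤ 4 - 3 * n + 8 * (∑ z, X z - 2) + 0.37211 := by linarith
  obtain ⟨A, hAS, hAc, hA⟩ := greedy ω hi (by linarith)
    ((univ \ V).filter (fun z => ω z ≤ hi)) (fun z _ => hω0 z)
  refine ⟨A, hAS.trans (filter_subset _ _), ?_, hAc⟩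
  by_contra hlt
  push Not at hlt
  rcases hA with hA | ⟨r, hrS, hrA, hr1, hr2⟩
  · have h1 : ∑ z ∈ R, X z ≤ ∑ z ∈ A, ω z := by
      calc ∑ z ∈ R, X z ≤ ∑ z ∈ R, ω z := sum_le_sum fun z _ => hω1 z
        _ ≤ ∑ z ∈ A, ω z := by
            refine sum_le_sum_of_subset_of_nonneg ?_ fun z _ _ => hω0 z
            intro z hz
            rw [hA, mem_filter]
            refine ⟨hR hz, ?_⟩
            have h2 : ω z = X z := by simp only [hω, if_pos hz]
            have := D.h1 z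
            have := D.h2 z
            linarith
    linarith
  · have hrc : ω r ≤ hi := (mem_filter.1 hrS).2
    have h1 : ∑ z ∈ A, ω z = ∑ z ∈ A.filter (fun z => ω r ≤ ω z), ω z +
        ∑ z ∈ A.filter (fun z => ¬ ω r ≤ ω z), ω z := (sum_filter_add_sum_filter_not _ _ _).symm
    have h2 : ω r ≤ ∑ z ∈ A.filter (fun z => ω r ≤ ω z), ω z := by
      have hne : (A.filter (fun z => ω r ≤ ω z)).Nonempty := by
        rw [nonempty_iff_ne_empty]
        intro he
        rw [he, sum_empty] at hr1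
        linarith
      obtain ⟨w, hw⟩ := hne
      exact (mem_filter.1 hw).2.trans (single_le_sum (f := ω) (fun z _ => hω0 z) hw)
    have h3 : ∑ z ∈ (univ \ V).filter (fun z => t z < ω r / 2), X z ≤
        ∑ z ∈ A.filter (fun z => ¬ ω r ≤ ω z), ω z := by
      calc ∑ z ∈ (univ \ V).filter (fun z => t z < ω r / 2), X z ≤
          ∑ z ∈ (univ \ V).filter (fun z => t z < ω r / 2), ω z := sum_le_sum fun z _ => hω1 z
        _ ≤ ∑ z ∈ A.filter (fun z => ¬ ω r ≤ ω z), ω z := by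
            refine sum_le_sum_of_subset_of_nonneg ?_ fun z _ _ => hω0 z
            intro z hz
            rw [mem_filter] at hz
            have h4 : ω z < ω r := by
              have := hω2 z
              have := D.h1 z
              have := hz.2
              linarith
            rw [mem_filter]
            refine ⟨hr2 z (mem_filter.2 ⟨hz.1, ?_⟩) h4, not_le.2 h4⟩
            linarith
    have key : ∀ x F : ℝ, x < ω r / 2 → F ≤ ∑ z ∈ univ.filter (fun z => t z ≤ x), t z →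
        F - 0.075761 + (∑ z, X z - 2) / 2 ≤ ∑ z ∈ A.filter (fun z => ¬ ω r ≤ ω z), ω z := by
      intro x F hx hF
      have := D.star V x (ω r / 2) F hx hF
      linarith
    have h5 : 0 ≤ ∑ z ∈ A.filter (fun z => ¬ ω r ≤ ω z), ω z := sum_nonneg fun z _ => hω0 z
    have y0 : 0.033 < ω r / 2 := by linarith
    have y1 := key _ _ (show (0.015 : ℝ) < ω r / 2 by linarith) D.s1
    have y2 := key _ _ (show (0.0354 : ℝ) < ω r / 2 by linarith) D.s2
    have y3 := key _ _ (show (0.0897 : ℝ) < ω r / 2 by linarith) D.s3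
    have y4 := key _ _ (show (0.1355 : ℝ) < ω r / 2 by linarith) D.s4
    have y5 := key _ _ (show (0.1666 : ℝ) < ω r / 2 by linarith) D.s5
    linarith

/-- The grouping lemma for nonnegative exponents. -/
theorem Dat2.main (D : Dat2 t X cl n) : ∃ g : ι → Fin 5, ∀ Y : Fin 5 → ℝ,
    (∀ i, Y i = ∑ z ∈ univ.filter (fun z => g z = i), X z) →
    Y 0 + Y 1 + Y 2 + Y 3 + Y 4 = ∑ z, X z ∧ ∃ H : ℝ, 0 ≤ H ∧
      H = 2 * (∑ z, X z - 2) + (n - (Y 0 + Y 1)) ∧
      Y 0 + Y 1 + 0.000001 ≤ n ∧ Y 0 + Y 1 + 2 * Y 2 + 2 * Y 3 + 0.000001 ≤ 4 - n ∧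
      Y 0 + 2 * Y 2 + 4 * Y 4 + 4 * H + 0.000001 ≤ n ∧
      Y 1 + 2 * Y 3 + 8 * H + 0.000001 ≤ 2 * n ∧
      8 * H + 0.000001 ≤ Y 1 + 2 * Y 3 := by
  have hX := D.hX
  have hn1 := D.hn1
  have hn2 := D.hn2
  have hTT := D.le
  obtain ⟨τp, hτ0, hτ1, hτ2⟩ : ∃ τp : ℝ, 0 ≤ τp ∧ ∑ z, X z - 2 ≤ τp ∧
      τp ≤ ∑ z, X z - 2 + 0.000001 := by
    refine ⟨max 0 (∑ z, X z - 2), le_max_left _ _, le_max_right _ _, ?_⟩
    refine max_le ?_ ?_ <;> linarith
  obtain ⟨V, hV1, hV2, hV3⟩ := D.step1 τp hτ0 hτ2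
  obtain ⟨R, hRV, hRc, hR⟩ := D.step2 V (by linarith) hV3
  by_cases hn : n < 1.6
  · -- then `R` is not everything
    have hρ : n - (2.0465 - ∑ z, X z) - 0.00001 ≤ ∑ z ∈ R, X z := by
      rcases hR with hR | hR
      · exfalso
        have h1 := sum_sdiff (f := X) (subset_univ V)
        rw [hR] at hRc
        linarith
      · exact hR
    obtain ⟨A, hAV, hA1, hA2⟩ := D.step4 hn V R (by linarith) (by linarith) hRV (by linarith) hρ
    obtain ⟨g, hg⟩ := groups X V R A hRV hAV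
    refine ⟨g, fun Y hY => ?_⟩
    obtain ⟨g1, g2, g3, g4⟩ := hg Y hY
    refine ⟨g4, _, ?_, rfl, ?_, ?_, ?_, ?_, ?_⟩ <;> linarith
  · push Not at hn
    obtain ⟨g, hg⟩ := groups X V R ∅ hRV (empty_subset _)
    refine ⟨g, fun Y hY => ?_⟩
    obtain ⟨g1, g2, g3, g4⟩ := hg Y hY
    rw [sum_empty] at g2
    have hρ : n - (2.0465 - ∑ z, X z) - 0.00001 ≤ ∑ z ∈ R, X z ∨
        (∑ z ∈ R, X z = ∑ z, X z - ∑ z ∈ V, X z) := by
      rcases hR with hR | hR
      · right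
        have h1 := sum_sdiff (f := X) (subset_univ V)
        rw [hR]
        linarith
      · exact Or.inl hR
    refine ⟨g4, _, ?_, rfl, ?_, ?_, ?_, ?_, ?_⟩
    · linarith
    · linarith
    · rcases hρ with h | h <;> linarith
    · rcases hρ with h | h <;> linarith
    · rcases hρ with h | h <;> linarith
    · rcases hρ with h | h <;> linarith

end Pool.Agent.Y826.Z
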