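import Pool.Agent.Y823.Z.CombB

/-!
# The grouping lemma, second version: the sets

The proof of `Pool.Agent.Y823.Z` (helper823) with other constants; the granularity depends on the
total size.
-/

set_option autoImplicit false
set_option linter.unusedSectionVars false

namespace Pool.Agent.Y826.Z

open Finset Pool.Agent.Y823.Z

section

variable {ι : Type} [Fintype ι] [DecidableEq ι]

/-- The data of the grouping lemma. -/
structure Dat2 (t X : ι → ℝ) (cl : ι → Bool) (n : ℝ) : Prop where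
  h0 : ∀ z, 0 ≤ X z
  h1 : ∀ z, X z ≤ t z
  h2 : ∀ z, t z ≤ 0.665
  hT : ∑ z, t z ≤ 2.0425
  hX : 2 - 0.000001 ≤ ∑ z, X z
  hn1 : 4 / 3 - 0.000001 ≤ n
  hn2 : n ≤ 2 + 0.000001
  sw : 0.007 ≤ ∑ z ∈ univ.filter (fun z => t z ≤ 0.004), t z
  s0 : 0.066 ≤ ∑ z ∈ univ.filter (fun z => t z ≤ 0.01), t z
  s1 : 0.0864 ≤ ∑ z ∈ univ.filter (fun z => t z ≤ 0.015), t z
  s2 : 0.167 ≤ ∑ z ∈ univ.filter (fun z => t z ≤ 0.0354), t z
  s3 : 0.2586 ≤ ∑ z ∈ univ.filter (fun z => t z ≤ 0.0897), t z
  s4 : 0.3206 ≤ ∑ z ∈ univ.filter (fun z => t z ≤ 0.1355), t z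
  s5 : 0.3824 ≤ ∑ z ∈ univ.filter (fun z => t z ≤ 0.1666), t z
  s6 : 0.451 ≤ ∑ z ∈ univ.filter (fun z => t z ≤ 0.3315), t z
  hc : ∀ b, ∑ z ∈ univ.filter (fun z => cl z = b ∧ 0.3315 < t z), t z ≤ 0.8745

variable {t X : ι → ℝ} {cl : ι → Bool} {n : ℝ}

theorem Dat2.le (D : Dat2 t X cl n) : ∑ z, X z ≤ 2.0425 := (sum_le_sum fun z _ => D.h1 z).trans D.hT

/-- the sum of the `X z` over the small items -/
theorem Dat2.small (D : Dat2 t X cl n) (x F : ℝ)
    (hF : F ≤ ∑ z ∈ univ.filter (fun z => t z ≤ x), t z) :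
    F - 2.0425 + ∑ z, X z ≤ ∑ z ∈ univ.filter (fun z => t z ≤ x), X z := by
  have h1 : ∑ z ∈ univ.filter (fun z => t z ≤ x), (t z - X z) ≤ ∑ z, (t z - X z) := by
    refine sum_le_sum_of_subset_of_nonneg (filter_subset _ _) fun z _ _ => ?_
    have := D.h1 z
    linarith
  rw [sum_sub_distrib, sum_sub_distrib] at h1
  have := D.hT
  linarith

/-- the same outside of `V` -/
theorem Dat2.star (D : Dat2 t X cl n) (V : Finset ι) (x y F : ℝ) (hxy : x < y)
    (hF : F ≤ ∑ z ∈ univ.filter (fun z => t z ≤ x), t z) :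
    F - 2.0425 + ∑ z, X z - ∑ z ∈ V, X z ≤
      ∑ z ∈ (univ \ V).filter (fun z => t z < y), X z := by
  have h1 := D.small x F hF
  have h2 : ∑ z ∈ univ.filter (fun z => t z ≤ x), X z ≤
      ∑ z ∈ (univ \ V).filter (fun z => t z < y) ∪ V, X z := by
    refine sum_le_sum_of_subset_of_nonneg ?_ fun z _ _ => D.h0 z
    intro z hz
    rw [mem_filter] at hz
    rw [mem_union, mem_filter, mem_sdiff]
    by_cases hzV : z ∈ V
    · exact Or.inr hzV
    · exact Or.inl ⟨⟨mem_univ _, hzV⟩, lt_of_le_of_lt hz.2 hxy⟩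
  have h3 : ∑ z ∈ (univ \ V).filter (fun z => t z < y) ∪ V, X z ≤
      ∑ z ∈ (univ \ V).filter (fun z => t z < y), X z + ∑ z ∈ V, X z := by
    have h4 := sum_union_inter (s₁ := (univ \ V).filter (fun z => t z < y)) (s₂ := V) (f := X)
    have h5 : 0 ≤ ∑ z ∈ (univ \ V).filter (fun z => t z < y) ∩ V, X z :=
      sum_nonneg fun z _ => D.h0 z
    linarith
  linarith

/-- Step 1: the set `V` -/
theorem Dat2.step1 (D : Dat2 t X cl n) (τp : ℝ) (hτ0 : 0 ≤ τp)
    (hτ : τp ≤ ∑ z, X z - 2 + 0.000001) : ∃ V : Finset ι,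
    τp + (2.0465 - ∑ z, X z) / 2 + 0.00001 ≤ ∑ z ∈ V, X z ∧
    ∑ z ∈ V, X z ≤ τp + (2.0465 - ∑ z, X z) / 2 + 0.01001 ∧
    0.0061 - 2.0425 + ∑ z, X z ≤ ∑ z ∈ (univ \ V).filter (fun z => t z ≤ 0.004), X z := by
  have hle := D.le
  set c : ℝ := τp + (2.0465 - ∑ z, X z) / 2 + 0.01001 with hc
  have hc0 : 0 ≤ c := by linarith
  have g1 := D.small _ _ D.s0
  have g2 := D.small _ _ D.sw
  -- the two kinds of small items
  set S1 : Finset ι := univ.filter (fun z => 0.004 < t z ∧ t z ≤ 0.01) with hS1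
  set S2 : Finset ι := univ.filter (fun z => t z ≤ 0.004) with hS2
  have hdis : Disjoint S1 S2 := by
    rw [disjoint_left]
    intro z hz1 hz2
    have h1 := (mem_filter.1 hz1).2.1
    have h2 := (mem_filter.1 hz2).2
    linarith
  have huni : univ.filter (fun z => t z ≤ 0.01) = S1 ∪ S2 := by
    ext z
    simp only [hS1, hS2, mem_filter, mem_union, mem_univ, true_and]
    constructor
    · intro h
      rcases le_or_gt (t z) 0.004 with h1 | h1
      · exact Or.inr h1
      · exact Or.inl ⟨h1, h⟩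
    · rintro (h | h)
      · exact h.2
      · linarith
  rw [huni, sum_union hdis] at g1
  obtain ⟨V1, hV1S, hV1c, hV1⟩ := greedy X c hc0 S1 (fun z _ => D.h0 z)
  rcases hV1 with hV1 | ⟨r, hrS, _, hr1, _⟩
  · -- all the items of the first kind are taken
    rw [hV1] at hV1c
    obtain ⟨V2, hV2S, hV2c, hV2⟩ := greedy X (c - ∑ z ∈ S1, X z) (by linarith) S2 (fun z _ => D.h0 z)
    have hd2 : Disjoint S1 V2 := disjoint_of_subset_right hV2S hdis
    have hsum : ∑ z ∈ S1 ∪ V2, X z = ∑ z ∈ S1, X z + ∑ z ∈ V2, X z := sum_union hd2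
    have hm : ∑ z ∈ (univ \ (S1 ∪ V2)).filter (fun z => t z ≤ 0.004), X z =
        ∑ z ∈ S2, X z - ∑ z ∈ V2, X z := by
      rw [eq_sub_iff_add_eq, ← sum_union]
      · congr 1
        ext z
        simp only [hS2, mem_filter, mem_union, mem_sdiff, mem_univ, true_and]
        constructor
        · rintro (h | h)
          · exact h.2
          · exact (mem_filter.1 (hV2S h)).2
        · intro h
          by_cases hz : z ∈ V2
          · exact Or.inr hz
          · left
            refine ⟨?_, h⟩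
            rintro (h' | h')
            · exact disjoint_left.1 hdis h' (mem_filter.2 ⟨mem_univ _, h⟩)
            · exact hz h'
      · rw [disjoint_left]
        intro z hz hz2
        exact (mem_sdiff.1 (mem_filter.1 hz).1).2 (mem_union_right _ hz2)
    refine ⟨S1 ∪ V2, ?_, ?_, ?_⟩
    · rw [hsum]
      rcases hV2 with hV2 | ⟨r, hrS, _, hr1, _⟩
      · rw [hV2]
        linarith
      · have h2 : X r ≤ 0.004 := (D.h1 r).trans (mem_filter.1 hrS).2
        have h3 : ∑ z ∈ V2.filter (fun z => X r ≤ X z), X z ≤ ∑ z ∈ V2, X z :=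
          sum_le_sum_of_subset_of_nonneg (filter_subset _ _) fun z _ _ => D.h0 z
        linarith
    · rw [hsum]
      linarith
    · rw [hm]
      linarith
  · refine ⟨V1, ?_, hV1c, ?_⟩
    · have h2 : X r ≤ 0.01 := (D.h1 r).trans (mem_filter.1 hrS).2.2
      have h3 : ∑ z ∈ V1.filter (fun z => X r ≤ X z), X z ≤ ∑ z ∈ V1, X z :=
        sum_le_sum_of_subset_of_nonneg (filter_subset _ _) fun z _ _ => D.h0 z
      linarith
    · have h4 : (univ \ V1).filter (fun z => t z ≤ 0.004) = S2 := by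
        ext z
        simp only [hS2, mem_filter, mem_sdiff, mem_univ, true_and]
        constructor
        · exact fun h => h.2
        · intro h
          refine ⟨fun h' => ?_, h⟩
          exact disjoint_left.1 hdis (hV1S h') (mem_filter.2 ⟨mem_univ _, h⟩)
      rw [h4]
      linarith

/-- at most three large items -/
theorem Dat2.card_large (D : Dat2 t X cl n) (L : Finset ι) (hL : ∀ z ∈ L, 0.4 < X z) :
    L.card ≤ 3 := by
  by_contra hcon
  push Not at hcon
  have h1 : (L.card : ℝ) * 0.4 ≤ ∑ z ∈ L, t z := by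
    rw [← nsmul_eq_mul, ← sum_const]
    refine sum_le_sum fun z hz => ?_
    have := hL z hz
    have := D.h1 z
    linarith
  have h2 : ∑ z ∈ L, t z + ∑ z ∈ univ.filter (fun z => t z ≤ 0.3315), t z ≤ ∑ z, t z := by
    rw [← sum_union]
    · refine sum_le_sum_of_subset_of_nonneg (subset_univ _) fun z _ _ => ?_
      have := D.h0 z
      have := D.h1 z
      linarith
    · rw [disjoint_left]
      intro z hz hz2
      have := hL z hz
      have := D.h1 z
      have := (mem_filter.1 hz2).2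
      linarith
  have h3 : (4 : ℝ) ≤ L.card := by exact_mod_cast hcon
  have := D.s6
  have := D.hT
  linarith

/-- two large items in the same cell -/
theorem Dat2.pair (D : Dat2 t X cl n) (a b : ι) (hab : a ≠ b) (ha : 0.4 < X a) (hb : 0.4 < X b)
    (hcl : cl a = cl b) : X a + X b ≤ 0.8745 := by
  have h1 : ∑ z ∈ ({a, b} : Finset ι), t z ≤
      ∑ z ∈ univ.filter (fun z => cl z = cl b ∧ 0.3315 < t z), t z := by
    refine sum_le_sum_of_subset_of_nonneg ?_ fun z _ _ => ?_
    · intro z hz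
      rw [mem_filter]
      rw [mem_insert, mem_singleton] at hz
      rcases hz with h | h
      · rw [h]
        have := D.h1 a
        exact ⟨mem_univ _, hcl, by linarith⟩
      · rw [h]
        have := D.h1 b
        exact ⟨mem_univ _, rfl, by linarith⟩
    · have := D.h0 z
      have := D.h1 z
      linarith
  rw [sum_pair hab] at h1
  have := D.hc (cl b)
  have := D.h1 a
  have := D.h1 b
  linarith

/-- three large items -/
theorem Dat2.triple (D : Dat2 t X cl n) (r a b : ι) (hra : r ≠ a) (hrb : r ≠ b) (hab : a ≠ b)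
    (hr : 0.4 < X r) (ha : X r ≤ X a) (hb : X r ≤ X b) :
    X a + X b + 2 * X r ≤ 1.97675 := by
  have h1 := D.h1 a
  have h2 := D.h1 b
  have h3 := D.h2 a
  have h4 := D.h2 b
  have ha' : 0.4 < X a := hr.trans_le ha
  have hb' : 0.4 < X b := hr.trans_le hb
  by_cases h5 : cl r = cl a
  · have := D.pair r a hra hr ha' h5
    linarith
  · by_cases h6 : cl r = cl b
    · have := D.pair r b hrb hr hb' h6
      linarith
    · have h7 : cl a = cl b := by
        revert h5 h6
        cases cl r <;> cases cl a <;> cases cl b <;> simp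
      have := D.pair a b hab ha' hb' h7
      linarith

/-- Step 2: the set `R` -/
theorem Dat2.step2 (D : Dat2 t X cl n) (V : Finset ι) (hV : ∑ z ∈ V, X z ≤ 0.054511)
    (hm : 0.0061 - 2.0425 + ∑ z, X z ≤ ∑ z ∈ (univ \ V).filter (fun z => t z ≤ 0.004), X z) :
    ∃ R ⊆ univ \ V, ∑ z ∈ R, X z ≤ n - 0.00001 ∧
      (R = univ \ V ∨ n - (2.0465 - ∑ z, X z) - 0.00001 ≤ ∑ z ∈ R, X z) := by
  have hn1 := D.hn1
  have hle := D.le
  obtain ⟨R, hRS, hRc, hR⟩ := greedy X (n - 0.00001) (by linarith) (univ \ V) (fun z _ => D.h0 z)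
  refine ⟨R, hRS, hRc, ?_⟩
  rcases hR with hR | ⟨r, hrS, hrR, hr1, hr2⟩
  · exact Or.inl hR
  right
  by_contra hcon
  push Not at hcon
  -- the sum of the later items
  have h1 : ∑ z ∈ R, X z = ∑ z ∈ R.filter (fun z => X r ≤ X z), X z +
      ∑ z ∈ R.filter (fun z => ¬ X r ≤ X z), X z := (sum_filter_add_sum_filter_not _ _ _).symm
  have h2 : ∑ z ∈ R.filter (fun z => ¬ X r ≤ X z), X z < X r - (2.0465 - ∑ z, X z) := by linarith
  have h3 : ∑ z ∈ (univ \ V).filter (fun z => t z < X r), X z ≤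
      ∑ z ∈ R.filter (fun z => ¬ X r ≤ X z), X z := by
    refine sum_le_sum_of_subset_of_nonneg ?_ fun z _ _ => D.h0 z
    intro z hz
    rw [mem_filter] at hz ⊢
    have h4 : X z < X r := (D.h1 z).trans_lt hz.2
    exact ⟨hr2 z hz.1 h4, not_le.2 h4⟩
  have h0 : 0 ≤ ∑ z ∈ R.filter (fun z => ¬ X r ≤ X z), X z := sum_nonneg fun z _ => D.h0 z
  have key : ∀ x F : ℝ, x < X r → F ≤ ∑ z ∈ univ.filter (fun z => t z ≤ x), t z →
      F - 0.050511 < X r := by
    intro x F hx hF
    have := D.star V x (X r) F hx hF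
    linarith
  have y0 : 0.004 < X r := by linarith
  have y1 : 0.01 < X r := by
    have h4 : ∑ z ∈ (univ \ V).filter (fun z => t z ≤ 0.004), X z ≤
        ∑ z ∈ (univ \ V).filter (fun z => t z < X r), X z := by
      refine sum_le_sum_of_subset_of_nonneg ?_ fun z _ _ => D.h0 z
      intro z hz
      rw [mem_filter] at hz ⊢
      exact ⟨hz.1, lt_of_le_of_lt hz.2 y0⟩
    linarith
  have y2 := key _ _ y1 D.s0
  have y3 := key _ _ (show (0.015 : ℝ) < X r by linarith) D.s1
  have y4 := key _ _ (show (0.0354 : ℝ) < X r by linarith) D.s2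
  have y5 := key _ _ (show (0.0897 : ℝ) < X r by linarith) D.s3
  have y5' := key _ _ (show (0.1666 : ℝ) < X r by linarith) D.s5
  have y5'' := key _ _ (show (0.3315 : ℝ) < X r by linarith) D.s6
  have y6 : 0.4 < X r := by linarith
  -- large items
  have hB := D.card_large (insert r (R.filter (fun z => X r ≤ X z))) (by
    intro z hz
    rcases mem_insert.1 hz with h | h
    · rw [h]
      exact y6
    · exact y6.trans_le (mem_filter.1 h).2)
  rw [card_insert_of_notMem (fun h => hrR (mem_filter.1 h).1)] at hB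
  have hle : ∀ z, X z ≤ 0.665 := fun z => (D.h1 z).trans (D.h2 z)
  have hB2 : 2 ≤ (R.filter (fun z => X r ≤ X z)).card := by
    by_contra hlt
    push Not at hlt
    have h5 : ∑ z ∈ R.filter (fun z => X r ≤ X z), X z ≤ 0.665 := by
      have h6 : ∑ z ∈ R.filter (fun z => X r ≤ X z), X z ≤
          ∑ _z ∈ R.filter (fun z => X r ≤ X z), (0.665 : ℝ) := sum_le_sum fun z _ => hle z
      rw [sum_const, nsmul_eq_mul] at h6
      have h7 : ((R.filter (fun z => X r ≤ X z)).card : ℝ) ≤ 1 := by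
        exact_mod_cast (by omega : (R.filter (fun z => X r ≤ X z)).card ≤ 1)
      linarith
    have := hle r
    linarith
  have hB3 : (R.filter (fun z => X r ≤ X z)).card = 2 := by omega
  obtain ⟨a, b, hab, hRab⟩ := card_eq_two.1 hB3
  have haR : a ∈ R.filter (fun z => X r ≤ X z) := by rw [hRab]; simp
  have hbR : b ∈ R.filter (fun z => X r ≤ X z) := by rw [hRab]; simp
  have hra : r ≠ a := fun h => hrR (h ▸ (mem_filter.1 haR).1)
  have hrb : r ≠ b := fun h => hrR (h ▸ (mem_filter.1 hbR).1)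
  have htr := D.triple r a b hra hrb hab y6 (mem_filter.1 haR).2 (mem_filter.1 hbR).2
  have hsum : ∑ z ∈ R.filter (fun z => X r ≤ X z), X z = X a + X b := by
    rw [hRab, sum_pair hab]
  -- everything else is accepted
  have hall : univ \ V ⊆ insert r R := by
    intro z hz
    rw [mem_insert]
    by_contra hcon2
    push Not at hcon2
    have hz1 : X r ≤ X z := by
      by_contra h
      exact hcon2.2 (hr2 z hz (not_le.1 h))
    have h8 := D.card_large (insert z (insert r {a, b})) (by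
      intro w hw
      simp only [mem_insert, mem_singleton] at hw
      rcases hw with h | h | h | h
      · rw [h]; exact y6.trans_le hz1
      · rw [h]; exact y6
      · rw [h]; exact y6.trans_le (mem_filter.1 haR).2
      · rw [h]; exact y6.trans_le (mem_filter.1 hbR).2)
    have hza : z ≠ a := fun h => hcon2.2 (h ▸ (mem_filter.1 haR).1)
    have hzb : z ≠ b := fun h => hcon2.2 (h ▸ (mem_filter.1 hbR).1)
    rw [card_insert_of_notMem (by simp [hcon2.1, hza, hzb]),
      card_insert_of_notMem (by simp [hra, hrb]), card_pair hab] at h8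
    omega
  have h9 : ∑ z, X z - ∑ z ∈ V, X z ≤ X r + ∑ z ∈ R, X z := by
    have h10 : ∑ z ∈ univ \ V, X z ≤ ∑ z ∈ insert r R, X z :=
      sum_le_sum_of_subset_of_nonneg hall fun z _ _ => D.h0 z
    rw [sum_insert hrR] at h10
    have h11 := sum_sdiff (f := X) (subset_univ V)
    linarith
  linarith

end

end Pool.Agent.Y826.Z
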